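import Pool.Agent.Helper64.FX.Pub
import Pool.Agent.Helper64.FL.Fam
import Pool.Agent.Helper64.FL.Table

/-! MP_866009_co: the two versions of the list are the same. -/

set_option autoImplicit false

namespace Pool.Agent.Helper64.FX

open Pool.Agent.Helper64

variable {V : Type}

theorem ipt_iff (G : SimpleGraph V) (l : List V) : IPt G l ↔ FL.IPt G l := by
  induction l with
  | nil => exact Iff.rfl
  | cons a l ih => unfold IPt FL.IPt; rw [ih]

theorem dia_iff (G : SimpleGraph V) : Diamond G ↔ FL.DiaS G := Iff.rfl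

theorem wheel_iff (G : SimpleGraph V) : Wheel G ↔ FL.WheelS G := by
  unfold Wheel FL.WheelS
  simp only [ipt_iff]

theorem rungs_eq (G : SimpleGraph V) (h k : V) (M : List V) : rungs G h k M = FL.rungs G h k M :=
  rfl

theorem ladM_iff (G : SimpleGraph V) (h k : V) (M : List V) (a b : Bool) :
    LadM G h k M a b ↔ FL.LadM G h k M a b :=
  ⟨fun x => ⟨(ipt_iff G M).1 x.ip, x.two, x.ne, x.nadj, x.hM, x.kM, x.fst, x.lst, x.mid, x.ind⟩,
    fun x => ⟨(ipt_iff G M).2 x.ip, x.two, x.ne, x.nadj, x.hM, x.kM, x.fst, x.lst, x.mid, x.ind⟩⟩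

theorem gap_iff (G : SimpleGraph V) (h k : V) (M : List V) : Gap1 G h k M ↔ FL.Gap1 G h k M :=
  Iff.rfl

theorem lad_iff (G : SimpleGraph V) : Ladder G ↔ FL.LadS G := by
  unfold Ladder FL.LadS
  simp only [ladM_iff, rungs_eq, gap_iff]

theorem ladC_iff (G : SimpleGraph V) : LadderC G ↔ FL.LadC G := by
  unfold LadderC FL.LadC
  simp only [ladM_iff, rungs_eq, gap_iff]

theorem ring_iff (G : SimpleGraph V) (m : ℕ) (n : ℕ → V) (P : ℕ → List V) :
    Ring G m n P ↔ FL.Ring G m n P :=
  ⟨fun x => ⟨x.m3, x.clq, x.len, fun i hi => (ipt_iff G _).1 (x.pth i hi), x.fst, x.lst, x.cln,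
      x.dis, x.sep⟩,
    fun x => ⟨x.m3, x.clq, x.len, fun i hi => (ipt_iff G _).2 (x.pth i hi), x.fst, x.lst, x.cln,
      x.dis, x.sep⟩⟩

theorem ringE_iff (G : SimpleGraph V) : RingE G ↔ FL.RingE G := by
  unfold RingE FL.RingE
  simp only [ring_iff]

theorem ringO_iff (G : SimpleGraph V) : RingO G ↔ FL.RingO G := by
  unfold RingO FL.RingO
  simp only [ring_iff]

/-! ### The table -/

def edB (T : ℕ × ℕ) (i j : ℕ) : Bool :=
  Nat.blt i j && (Nat.blt j T.1 && T.2.testBit (j * (j - 1) / 2 + i))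

theorem edB_iff (T : ℕ × ℕ) (i j : ℕ) : edB T i j = true ↔ Ed T i j := by
  unfold edB Ed
  simp [Nat.blt_eq]

def nbB (T : ℕ × ℕ) (i : ℕ) : List ℕ := (List.range T.1).filter (fun j => edB T i j || edB T j i)

def twoB (T : ℕ × ℕ) (i : ℕ) : Bool := Nat.beq (nbB T i).length 2

theorem twoB_iff (T : ℕ × ℕ) (i : ℕ) : twoB T i = true ↔ Two T i := by
  have h : {j | Ed T i j ∨ Ed T j i} = ↑((nbB T i).toFinset) := by
    ext j
    simp only [Set.mem_ofPred_eq, List.coe_toFinset, nbB, List.mem_filter, List.mem_range,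
      Bool.or_eq_true, edB_iff]
    constructor
    · rintro (h | h)
      · exact ⟨h.2.1, Or.inl h⟩
      · exact ⟨lt_trans h.1 h.2.1, Or.inr h⟩
    · exact fun h => h.2
  have hnd : (nbB T i).Nodup := List.nodup_range.filter _
  unfold Two twoB
  rw [h, Set.ncard_coe_finset, List.toFinset_card_of_nodup hnd, Nat.beq_eq]

def elB (T : ℕ × ℕ) (i j : ℕ) : Bool := edB T i j && (twoB T i && twoB T j)

theorem elB_iff (T : ℕ × ℕ) (i j : ℕ) : elB T i j = true ↔ El T i j := by
  unfold elB El
  simp only [Bool.and_eq_true, edB_iff, twoB_iff]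

def ndB : List (ℕ × ℕ) → Bool
  | [] => true
  | p :: l => l.all (fun q => !(Nat.beq p.1 q.1 && Nat.beq p.2 q.2)) && ndB l

theorem ndB_nodup (l : List (ℕ × ℕ)) (h : ndB l = true) : l.Nodup := by
  induction l with
  | nil => exact List.nodup_nil
  | cons p l ih =>
    simp only [ndB, Bool.and_eq_true, List.all_eq_true] at h
    refine List.nodup_cons.2 ⟨fun hp => ?_, ih h.2⟩
    have := h.1 p hp
    simp at this

def chkE (T : ℕ × ℕ) (E : FL.Ent) : Bool :=
  Nat.beq E.n T.1 &&
  ((List.range T.1).all (fun j => (List.range j).all (fun i =>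
    (FL.memp i j E.el == elB T i j) && (elB T i j || (FL.memp i j E.rg == edB T i j)))) &&
  (E.el.all (fun p => Nat.blt p.1 p.2 && Nat.blt p.2 T.1) && ndB E.el))

theorem memp_iff (i j : ℕ) (l : List (ℕ × ℕ)) :
    FL.memp i j l = true ↔ (i, j) ∈ l ∨ (j, i) ∈ l := by
  induction l with
  | nil => simp [FL.memp]
  | cons p l ih =>
    obtain ⟨a, b⟩ := p
    simp only [FL.memp, Bool.or_eq_true, Bool.and_eq_true, ih, List.mem_cons, Prod.mk.injEq,
      Nat.beq_eq]
    constructor
    · rintro ((⟨rfl, rfl⟩ | ⟨rfl, rfl⟩) | h)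
      · exact Or.inl (Or.inl ⟨rfl, rfl⟩)
      · exact Or.inr (Or.inl ⟨rfl, rfl⟩)
      · exact h.imp Or.inr Or.inr
    · rintro ((⟨rfl, rfl⟩ | h) | (⟨rfl, rfl⟩ | h))
      · exact Or.inl (Or.inl ⟨rfl, rfl⟩)
      · exact Or.inr (Or.inl h)
      · exact Or.inl (Or.inr ⟨rfl, rfl⟩)
      · exact Or.inr (Or.inr h)

/-- what the check says -/
theorem chkE_spec {T : ℕ × ℕ} {E : FL.Ent} (h : chkE T E = true) : E.n = T.1 ∧
    (∀ i j, El T i j ↔ (i, j) ∈ E.el) ∧
    (∀ i j, i < j → j < T.1 → ((i, j) ∉ E.el ↔ FL.memp i j E.el = false)) ∧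
    (∀ i j, i < j → j < T.1 → ¬ El T i j → (FL.memp i j E.rg = true ↔ Ed T i j)) ∧
    E.el.Nodup := by
  simp only [chkE, Bool.and_eq_true, List.all_eq_true, List.mem_range, beq_iff_eq,
    Bool.or_eq_true, Nat.beq_eq, Nat.blt_eq] at h
  obtain ⟨h1, h2, h3, h4⟩ := h
  have key : ∀ i j, i < j → j < T.1 → ((i, j) ∈ E.el ↔ FL.memp i j E.el = true) := by
    intro i j hij hj
    rw [memp_iff]
    constructor
    · exact Or.inl
    · rintro (h | h)
      · exact h
      · exact absurd (h3 _ h).1 (by simp; omega)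
  refine ⟨h1, ?_, ?_, ?_, ndB_nodup _ h4⟩
  · intro i j
    constructor
    · intro h
      rw [key i j h.1.1 h.1.2.1, (h2 j h.1.2.1 i h.1.1).1, elB_iff]
      exact h
    · intro h
      have h5 := h3 _ h
      rw [key i j h5.1 h5.2, (h2 j h5.2 i h5.1).1, elB_iff] at h
      exact h
  · intro i j hij hj
    rw [key i j hij hj, Bool.not_eq_true]
  · intro i j hij hj hn
    rcases (h2 j hj i hij).2 with h | h
    · exact absurd ((elB_iff T i j).1 h) hn
    · rw [h, edB_iff]

theorem sub_iff (G : SimpleGraph V) {T : ℕ × ℕ} {E : FL.Ent} (h : chkE T E = true) :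
    Sub G T ↔ FL.Real G E := by
  obtain ⟨hn, hel, hnot, hrg, hnd⟩ := chkE_spec h
  constructor
  · rintro ⟨f, P, h1, h2, h3, h4⟩
    refine ⟨f, fun e => match E.el[e]? with
      | some p => P p.1 p.2
      | none => [], ?_, ?_, ?_, ?_⟩
    · intro i j hij hj
      rw [hn] at hj
      refine ⟨(h1 i j hij hj).1, fun hm => ?_⟩
      have hne : ¬ El T i j := fun he => (hnot i j hij hj).2 hm ((hel i j).1 he)
      rw [(h1 i j hij hj).2 hne, hrg i j hij hj hne]
    · intro e a b he
      have hm : (a, b) ∈ E.el := List.mem_of_getElem? he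
      have hE := (hel a b).2 hm
      have h5 := h2 a b hE
      rw [hn]
      refine ⟨lt_trans hE.1.1 hE.1.2.1, hE.1.2.1, ne_of_lt hE.1.1, ?_, ?_⟩
      · simp only [he]
        exact (ipt_iff G _).1 h5.1
      · simp only [he]
        exact fun x hx m hm => h5.2 x hx m hm
    · intro e e' hee he' x hx y hy
      have he : e < E.el.length := lt_trans hee he'
      simp only [List.getElem?_eq_getElem he] at hx
      simp only [List.getElem?_eq_getElem he'] at hy
      refine h3 _ _ _ _ ((hel _ _).2 (List.getElem_mem he)) ((hel _ _).2 (List.getElem_mem he'))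
        ?_ x hx y hy
      intro heq
      have := (List.Nodup.getElem_inj_iff hnd (hi := he) (hj := he')).1 heq
      omega
    · intro x
      rcases h4 x with ⟨i, hi, rfl⟩ | ⟨i, j, hE, hx⟩
      · exact Or.inl ⟨i, by rw [hn]; exact hi, rfl⟩
      · right
        obtain ⟨e, he, hee⟩ := List.getElem_of_mem ((hel i j).1 hE)
        refine ⟨e, he, ?_⟩
        simp only [List.getElem?_eq_getElem he, hee]
        exact hx
  · rintro ⟨f, P, h1, h2, h3, h4⟩
    classical
    have hex : ∀ i j : ℕ, El T i j → ∃ e : ℕ, E.el[e]? = some (i, j) := by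
      intro i j hE
      obtain ⟨e, he, hee⟩ := List.getElem_of_mem ((hel i j).1 hE)
      exact ⟨e, by rw [List.getElem?_eq_getElem he, hee]⟩
    let P' : ℕ → ℕ → List V := fun i j =>
      if hh : ∃ e : ℕ, E.el[e]? = some (i, j) then P hh.choose else []
    have hP : ∀ i j : ℕ, El T i j → ∃ e : ℕ, E.el[e]? = some (i, j) ∧ P' i j = P e := by
      intro i j hE
      have hh := hex i j hE
      exact ⟨hh.choose, hh.choose_spec, by simp only [P', dif_pos hh]⟩
    refine ⟨f, P', ?_, ?_, ?_, ?_⟩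
    · intro i j hij hj
      have h5 := h1 i j hij (by rw [hn]; exact hj)
      refine ⟨h5.1, fun hne => ?_⟩
      rw [h5.2 ((hnot i j hij hj).1 (fun hm => hne ((hel i j).2 hm))), hrg i j hij hj hne]
    · intro i j hE
      obtain ⟨e, he, hPe⟩ := hP i j hE
      have h5 := h2 e i j he
      rw [hPe]
      exact ⟨(ipt_iff G _).2 h5.2.2.2.1, fun x hx m hm => h5.2.2.2.2 x hx m (by rw [hn]; exact hm)⟩
    · intro i j i' j' hE hE' hne x hx y hy
      obtain ⟨e, he, hPe⟩ := hP i j hE
      obtain ⟨e', he', hPe'⟩ := hP i' j' hE'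
      rw [hPe] at hx
      rw [hPe'] at hy
      have hlt : e < E.el.length := (List.getElem?_eq_some_iff.1 he).1
      have hlt' : e' < E.el.length := (List.getElem?_eq_some_iff.1 he').1
      rcases lt_trichotomy e e' with hl | hl | hl
      · exact h3 e e' hl hlt' x hx y hy
      · rw [hl, he'] at he
        exact absurd (Option.some.inj he).symm hne
      · have h6 := h3 e' e hl hlt y hy x hx
        exact ⟨h6.1.symm, fun ha => h6.2 ha.symm⟩
    · intro x
      rcases h4 x with ⟨i, hi, rfl⟩ | ⟨e, he, hx⟩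
      · exact Or.inl ⟨i, by rw [← hn]; exact hi, rfl⟩
      · right
        have hE : El T (E.el[e]).1 (E.el[e]).2 := (hel _ _).2 (List.getElem_mem he)
        refine ⟨(E.el[e]).1, (E.el[e]).2, hE, ?_⟩
        obtain ⟨e', he', hPe⟩ := hP _ _ hE
        obtain ⟨hlt', hee'⟩ := List.getElem?_eq_some_iff.1 he'
        have : e' = e := (List.Nodup.getElem_inj_iff hnd (hi := hlt') (hj := he)).1 hee'
        rw [hPe, this]
        exact hx

theorem zip_iff (G : SimpleGraph V) (l : List (ℕ × ℕ)) (l' : List FL.Ent)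
    (h1 : l.length = l'.length) (h2 : ∀ p ∈ l.zip l', chkE p.1 p.2 = true) :
    (∃ T ∈ l, Sub G T) ↔ ∃ E ∈ l', FL.Real G E := by
  induction l generalizing l' with
  | nil =>
    cases l' with
    | nil => simp
    | cons b l' => simp at h1
  | cons a l ih =>
    cases l' with
    | nil => simp at h1
    | cons b l' =>
      have h3 := ih l' (by simpa using h1) (fun p hp => h2 p (by simp [hp]))
      have h4 := sub_iff G (h2 (a, b) (by simp))
      simp only [List.mem_cons, exists_eq_or_imp]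
      simp only at h4
      rw [h3, h4]

theorem tab_check : (Nat.beq tab.length FL.table.length &&
    (tab.zip FL.table).all (fun p => chkE p.1 p.2)) = true := by decide +kernel

theorem tab_iff (G : SimpleGraph V) : (∃ T ∈ tab, Sub G T) ↔ ∃ E ∈ FL.table, FL.Real G E := by
  have h := tab_check
  rw [Bool.and_eq_true, List.all_eq_true, Nat.beq_eq] at h
  exact zip_iff G tab FL.table h.1 h.2

/-- the two versions of the list -/
theorem inF_iff (G : SimpleGraph V) : InF G ↔ FL.InF FL.table G := by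
  unfold InF FL.InF
  rw [dia_iff, wheel_iff, lad_iff, ladC_iff, ringE_iff, ringO_iff, tab_iff]

end Pool.Agent.Helper64.FX
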