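import Pool.Agent.Helper64.FX.Pub
import Pool.Agent.Helper64.DT.Defs
import Pool.Agent.Helper60.HG.GEO
import Pool.Agent.Helper38.HG.FU
import Pool.Agent.Helper64.FL.Fam
import Pool.Agent.Helper64.DG.Fi
import Pool.Agent.Helper90.DG.HGE
import Pool.Agent.Helper90.DG.HDF

/-! MP_866009_co: diamond-free circle graphs, heredity, minimal graphs. -/

set_option autoImplicit false

namespace Pool.Agent.Helper64.FX

open Pool.Agent.Helper64
open Pool.Agent.Helper64.DT (DF)
open Pool.Agent.Helper64.HG (Circ Model Ovl)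

variable {V : Type}

theorem hc_iff [Finite V] (G : SimpleGraph V) : HellyCircle G ↔ Circ G ∧ DF G := by
  constructor
  · rintro ⟨M, h⟩
    have h' : HG.HellyCircle G :=
      ⟨(⟨M.a, M.b, M.norm_a, M.norm_b, M.distinct, M.adj⟩ : HG.ChordModel G), h⟩
    exact ⟨HG.geo_circ_of_helly
      (⟨M.a, M.b, M.norm_a, M.norm_b, M.distinct, M.adj⟩ : HG.ChordModel G),
      Pool.Agent.Helper90.DG.st_HDF V G h'⟩
  · rintro ⟨⟨l, r, h1⟩, h2⟩
    obtain ⟨l', r', h3⟩ := DG.st_HMO V G l r h2 h1
    obtain ⟨M, h4⟩ := Pool.Agent.Helper90.DG.st_HGE V G l' r' h3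
    exact ⟨⟨M.a, M.b, M.norm_a, M.norm_b, M.distinct, M.adj⟩, h4⟩

theorem df_emb {W : Type} {G : SimpleGraph V} {H : SimpleGraph W} (f : H ↪g G) (h : DF G) :
    DF H := by
  intro a b c d h1 h2 h3 h4 h5 h6
  exact f.map_adj_iff.1 (h _ _ _ _ (f.map_adj_iff.2 h1) (f.map_adj_iff.2 h2)
    (f.map_adj_iff.2 h3) (f.map_adj_iff.2 h4) (f.map_adj_iff.2 h5)
    (fun e => h6 (f.injective e)))

theorem hc_emb {W : Type} [Finite V] [Finite W] {G : SimpleGraph V} {H : SimpleGraph W}
    (f : H ↪g G) (h : HellyCircle G) : HellyCircle H := by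
  rw [hc_iff] at h ⊢
  exact ⟨HG.st_EMB V W G H f h.1, df_emb f h.2⟩

/-- the diamond is a circle graph -/
theorem dia_circ [Finite V] {G : SimpleGraph V} (h : FL.DiaS G) : Circ G := by
  classical
  obtain ⟨a, b, c, d, hab, hac, hbc, had, hbd, hcd, hncd, hall⟩ := h
  have nab := hab.ne
  have nac := hac.ne
  have nbc := hbc.ne
  have nad := had.ne
  have nbd := hbd.ne
  have key : ∀ p q r s : ℝ, ∃ f : V → ℝ, f a = p ∧ f b = q ∧ f c = r ∧ f d = s := by
    intro p q r s
    refine ⟨fun x => if x = a then p else if x = b then q else if x = c then r else s,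
      if_pos rfl, ?_, ?_, ?_⟩
    · show (if b = a then p else if b = b then q else if b = c then r else s) = q
      rw [if_neg nab.symm, if_pos rfl]
    · show (if c = a then p else if c = b then q else if c = c then r else s) = r
      rw [if_neg nac.symm, if_neg nbc.symm, if_pos rfl]
    · show (if d = a then p else if d = b then q else if d = c then r else s) = s
      rw [if_neg nad.symm, if_neg nbd.symm, if_neg hcd.symm]
  obtain ⟨f, fa, fb, fc, fd⟩ := key 2 3 1 5
  obtain ⟨g, ga, gb, gc, gd⟩ := key 6 7 4 8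
  have hdc : ¬ G.Adj d c := fun e => hncd e.symm
  have irr : ∀ z, ¬ G.Adj z z := fun z e => G.loopless.irrefl z e
  refine ⟨f, g, ?_, ?_, ?_, ?_, ?_⟩
  · intro v
    rcases hall v with rfl | rfl | rfl | rfl
    · rw [fa, ga]; norm_num
    · rw [fb, gb]; norm_num
    · rw [fc, gc]; norm_num
    · rw [fd, gd]; norm_num
  · intro x y e
    rcases hall x with rfl | rfl | rfl | rfl <;> rcases hall y with rfl | rfl | rfl | rfl <;>
      simp only [fa, fb, fc, fd] at e <;> first | rfl | (exfalso; norm_num at e)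
  · intro x y e
    rcases hall x with rfl | rfl | rfl | rfl <;> rcases hall y with rfl | rfl | rfl | rfl <;>
      simp only [ga, gb, gc, gd] at e <;> first | rfl | (exfalso; norm_num at e)
  · intro x y
    rcases hall x with rfl | rfl | rfl | rfl <;> rcases hall y with rfl | rfl | rfl | rfl <;>
      simp only [fa, fb, fc, fd, ga, gb, gc, gd] <;> norm_num
  · intro x y
    rcases hall x with rfl | rfl | rfl | rfl <;> rcases hall y with rfl | rfl | rfl | rfl <;>
      simp only [Ovl, fa, fb, fc, fd, ga, gb, gc, gd, irr, hab, hac, hbc, had, hbd, hncd, hdc,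
        hab.symm, hac.symm, hbc.symm, had.symm, hbd.symm, true_iff, false_iff] <;> norm_num

/-- proper induced subgraphs of the diamond are diamond-free -/
theorem dia_df [Finite V] {G : SimpleGraph V} (h : FL.DiaS G) (S : Set V) (hS : S ≠ Set.univ) :
    DF (G.induce S) := by
  classical
  obtain ⟨a, b, c, d, -, -, -, -, -, -, -, hall⟩ := h
  intro p q r s h1 h2 h3 h4 h5 h6
  by_contra h7
  obtain ⟨x, hx⟩ : ∃ x, x ∉ S := by
    by_contra hc
    push Not at hc
    exact hS (Set.eq_univ_of_forall hc)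
  have hpq : p.1 ≠ q.1 := fun e => h1.ne (Subtype.ext e)
  have hpr : p.1 ≠ r.1 := fun e => h2.ne (Subtype.ext e)
  have hqr : q.1 ≠ r.1 := fun e => h3.ne (Subtype.ext e)
  have hps : p.1 ≠ s.1 := fun e => h4.ne (Subtype.ext e)
  have hqs : q.1 ≠ s.1 := fun e => h5.ne (Subtype.ext e)
  have hrs : r.1 ≠ s.1 := fun e => h6 (Subtype.ext e)
  have hxp : x ≠ p.1 := fun e => hx (e ▸ p.2)
  have hxq : x ≠ q.1 := fun e => hx (e ▸ q.2)
  have hxr : x ≠ r.1 := fun e => hx (e ▸ r.2)
  have hxs : x ≠ s.1 := fun e => hx (e ▸ s.2)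
  have hle : ({x, p.1, q.1, r.1, s.1} : Finset V).card ≤ ({a, b, c, d} : Finset V).card := by
    refine Finset.card_le_card ?_
    intro y _
    simpa using hall y
  have h4' : ({a, b, c, d} : Finset V).card ≤ 4 := Finset.card_le_four
  have h5' : ({x, p.1, q.1, r.1, s.1} : Finset V).card = 5 := by
    rw [Finset.card_insert_of_notMem, Finset.card_insert_of_notMem, Finset.card_insert_of_notMem,
      Finset.card_insert_of_notMem, Finset.card_singleton]
    · simpa using hrs
    · simp [hqr, hqs]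
    · simp [hpq, hpr, hps]
    · simp [hxp, hxq, hxr, hxs]
  omega

/-- minimal graphs from the structural notion -/
theorem minForb_of [Finite V] {G : SimpleGraph V} (h : FL.DiaS G ∨ FL.MinNC G) : MinForb G := by
  rcases h with h | h
  · refine ⟨fun hc => ?_, fun S hS => ?_⟩
    · obtain ⟨a, b, c, d, hab, hac, hbc, had, hbd, hcd, hncd, -⟩ := h
      exact hncd (((hc_iff G).1 hc).2 a b c d hab hac hbc had hbd hcd)
    · rw [hc_iff]
      exact ⟨HG.st_EMB V S G (G.induce S) (SimpleGraph.Embedding.induce S) (dia_circ h),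
        dia_df h S hS⟩
  · refine ⟨fun hc => h.nc ((hc_iff G).1 hc).1, fun S hS => ?_⟩
    obtain ⟨z, hz⟩ : ∃ z, z ∉ S := by
      by_contra hc
      push Not at hc
      exact hS (Set.eq_univ_of_forall hc)
    rw [hc_iff]
    refine ⟨?_, df_emb (SimpleGraph.Embedding.induce S) h.df⟩
    refine HG.st_EMB _ _ (G.induce {v | v ≠ z}) (G.induce S) ?_ (h.mn z)
    exact SimpleGraph.induceHomOfLE G (fun v hv e => hz (e ▸ hv))

/-- minimal graphs are diamonds or minimal non-circle graphs -/
theorem of_minForb [Finite V] {G : SimpleGraph V} (h : MinForb G) : FL.DiaS G ∨ FL.MinNC G := by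
  by_cases hD : DF G
  · right
    refine ⟨hD, fun hc => h.1 ((hc_iff G).2 ⟨hc, hD⟩), fun z => ?_⟩
    refine ((hc_iff _).1 (h.2 {v | v ≠ z} ?_)).1
    intro e
    have : z ∈ {v | v ≠ z} := by rw [e]; exact Set.mem_univ z
    exact this rfl
  · left
    unfold DF at hD
    push Not at hD
    obtain ⟨a, b, c, d, hab, hac, hbc, had, hbd, hcd, hncd⟩ := hD
    refine ⟨a, b, c, d, hab, hac, hbc, had, hbd, hcd, hncd, ?_⟩
    intro x
    by_contra hx
    push Not at hx
    have hS : {v | v ≠ x} ≠ Set.univ := by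
      intro e
      have : x ∈ {v | v ≠ x} := by rw [e]; exact Set.mem_univ x
      exact this rfl
    have hd := ((hc_iff _).1 (h.2 _ hS)).2 ⟨a, hx.1.symm⟩ ⟨b, hx.2.1.symm⟩ ⟨c, hx.2.2.1.symm⟩
      ⟨d, hx.2.2.2.symm⟩ hab hac hbc had hbd (fun e => hcd (congrArg Subtype.val e))
    exact hncd hd

/-- a graph outside the class contains a minimal one -/
theorem exists_min [Finite V] (G : SimpleGraph V) (h : ¬ HellyCircle G) :
    ∃ S : Set V, MinForb (G.induce S) := by
  have key : ∀ n, ∀ S : Set V, S.ncard = n → ¬ HellyCircle (G.induce S) →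
      ∃ S : Set V, MinForb (G.induce S) := by
    intro n
    induction n using Nat.strong_induction_on with
    | _ n ih =>
      intro S hn hS
      by_cases hm : MinForb (G.induce S)
      · exact ⟨S, hm⟩
      · have : ∃ T : Set S, T ≠ Set.univ ∧ ¬ HellyCircle ((G.induce S).induce T) := by
          by_contra hc
          push Not at hc
          exact hm ⟨hS, hc⟩
        obtain ⟨T, hT, hT2⟩ := this
        refine ih (Subtype.val '' T).ncard ?_ (Subtype.val '' T) rfl ?_
        · rw [← hn]
          refine Set.ncard_lt_ncard ?_ (Set.toFinite _)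
          refine ⟨?_, fun hle => hT ?_⟩
          · rintro _ ⟨x, _, rfl⟩
            exact x.2
          · refine Set.eq_univ_of_forall (fun x => ?_)
            obtain ⟨y, hy, hyx⟩ := hle x.2
            rw [← Subtype.ext hyx]
            exact hy
        · intro hc
          refine hT2 (hc_emb ?_ hc)
          exact ⟨⟨fun x => ⟨x.1.1, x.1, x.2, rfl⟩, fun x y e => Subtype.ext (Subtype.ext
            (congrArg (fun z => (z : (Subtype.val '' T : Set V)).1) e))⟩, Iff.rfl⟩
  refine key _ Set.univ rfl (fun hc => h (hc_emb ?_ hc))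
  exact ⟨⟨fun x => ⟨x, Set.mem_univ x⟩, fun x y e => congrArg Subtype.val e⟩, Iff.rfl⟩

end Pool.Agent.Helper64.FX
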