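import Pool.Agent.Helper64.FX.Bridge
import Pool.Agent.Helper64.FX.Min
import Pool.Agent.Helper64.FX.Mnd
import Pool.Agent.Helper64.FL.All
import Pool.Agent.Helper64.FL.Cks
import Pool.Agent.Helper24.FF.Tab

/-! MP_866009_co: the list of the minimal forbidden induced subgraphs, final assembly. -/

set_option autoImplicit false

namespace Pool.Agent.Helper64.FX

open Pool.Agent.Helper64
open Pool.Agent.Helper64.CT Pool.Agent.Helper64.DT
open Pool.Agent.Helper64.HG (Circ)

/-- a minimal diamond-free non-circle graph is in the list -/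
theorem minNC_inF (V : Type) [Finite V] (G : SimpleGraph V) (h : FL.MinNC G) :
    FL.InF FL.table G := by
  by_contra hI
  have hR : FL.Red G := Pool.Agent.Helper24.FF.a_MRD.1 V G h
  have hO : ¬ FL.Out G FL.table := by
    rintro (hW | hL | hT)
    · exact hI (Or.inr (Or.inl (Pool.Agent.Helper24.FF.a_WF3 V G h hW)))
    · exact hI (Or.inr (Or.inr (Or.inr (Or.inl (Pool.Agent.Helper24.FF.a_LF3 V G hR hL)))))
    · exact hI (Or.inr (Or.inr (Or.inr (Or.inr (Or.inr (Or.inr hT))))))
  have hCI : CI G := FL.a_CIM V G hR (FL.noP_of FL.a_PRE hR hO _ FL.cks_CI)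
  have hCII : CII G := by
    rcases FL.a_B5 V G hR hCI (FL.noP_of FL.a_PRE hR hO _ FL.cks_B) with h1 | h1 | h1
    · exact h1
    · exact absurd (Or.inr (Or.inr (Or.inl h1))) hI
    · exact absurd (Or.inr (Or.inr (Or.inr (Or.inr (Or.inr (Or.inl h1)))))) hI
  have hCQ : ∀ Q, MaxC G Q → CQ G Q := by
    rcases FL.a_CPT V G hR (FL.a_PRM V G h) hCI hCII (FL.noP_of FL.a_PRE hR hO _ FL.cks_C)
      with h1 | h1 | h1
    · exact h1
    · exact absurd (Or.inr (Or.inr (Or.inl h1))) hI
    · exact absurd (Or.inr (Or.inr (Or.inr (Or.inr (Or.inl h1))))) hI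
  exact h.nc (mnd V G hR.df hCI hCQ)

theorem minForb_iff (V : Type) [Finite V] (G : SimpleGraph V) : MinForb G ↔ InF G := by
  constructor
  · intro h
    rw [inF_iff]
    rcases of_minForb h with h1 | h1
    · exact Or.inl h1
    · exact minNC_inF V G h1
  · intro h
    exact minForb_of (Pool.Agent.Helper24.FF.fam_table V G ((inF_iff G).1 h))

theorem full (V : Type) [Finite V] (G : SimpleGraph V) :
    (MinForb G ↔ InF G) ∧ (HellyCircle G ↔ ∀ S : Set V, ¬ InF (G.induce S)) := by
  refine ⟨minForb_iff V G, fun h S hS => ?_, fun h => ?_⟩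
  · exact ((minForb_iff S (G.induce S)).2 hS).1 (hc_emb (SimpleGraph.Embedding.induce S) h)
  · by_contra hc
    obtain ⟨S, hS⟩ := exists_min G hc
    exact h S ((minForb_iff S (G.induce S)).1 hS)

end Pool.Agent.Helper64.FX
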