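import Mathlib

/-! All minimal forbidden induced subgraphs for Helly circle graphs (MP_866009_co): the notions in
the statement. -/

set_option autoImplicit false

namespace Pool.Agent.Helper64.FX

variable {V : Type}

/-! ### Helly circle graphs -/

/-- A chord model of `G`: every vertex `v` gets the chord of the unit circle of the complex plane
with endpoints `a v` and `b v`; all `2|V|` endpoints are distinct, and two distinct vertices are
adjacent exactly when their chords intersect. -/
structure ChordModel (G : SimpleGraph V) where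
  a : V → ℂ
  b : V → ℂ
  norm_a : ∀ v, ‖a v‖ = 1
  norm_b : ∀ v, ‖b v‖ = 1
  distinct : Function.Injective (Sum.elim a b)
  adj : ∀ u v, u ≠ v →
    (G.Adj u v ↔ (segment ℝ (a u) (b u) ∩ segment ℝ (a v) (b v)).Nonempty)

/-- A chord model is Helly if every family of pairwise intersecting chords has a common point. -/
def Helly {G : SimpleGraph V} (M : ChordModel G) : Prop :=
  ∀ S : Set V,
    (∀ u ∈ S, ∀ v ∈ S, (segment ℝ (M.a u) (M.b u) ∩ segment ℝ (M.a v) (M.b v)).Nonempty) →
    (⋂ v ∈ S, segment ℝ (M.a v) (M.b v)).Nonempty

/-- `G` is a Helly circle graph. -/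
def HellyCircle (G : SimpleGraph V) : Prop := ∃ M : ChordModel G, Helly M

/-- `G` is a minimal forbidden induced subgraph for the class of Helly circle graphs. -/
def MinForb (G : SimpleGraph V) : Prop :=
  ¬ HellyCircle G ∧ ∀ S : Set V, S ≠ Set.univ → HellyCircle (G.induce S)

/-! ### The infinite families -/

/-- the list is an induced path: the first vertex is different from all others, adjacent to the
next one and not adjacent to the later ones, and the rest is an induced path -/
def IPt (G : SimpleGraph V) : List V → Prop
  | [] => True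
  | a :: l => (∀ x ∈ l, a ≠ x) ∧ (∀ b ∈ l.head?, G.Adj a b) ∧ (∀ x ∈ l.tail, ¬ G.Adj a x) ∧ IPt G l

/-- the diamond -/
def Diamond (G : SimpleGraph V) : Prop := ∃ a b c d : V, G.Adj a b ∧ G.Adj a c ∧ G.Adj b c ∧
  G.Adj a d ∧ G.Adj b d ∧ c ≠ d ∧ ¬ G.Adj c d ∧ ∀ x, x = a ∨ x = b ∨ x = c ∨ x = d

/-- wheels: `r :: M` is an induced cycle of length at least four, `h` is the hub; `h` has three
pairwise nonadjacent neighbours and no three consecutive neighbours on the cycle -/
def Wheel (G : SimpleGraph V) : Prop := ∃ (h r : V) (M : List V), IPt G M ∧ 3 ≤ M.length ∧ h ≠ r ∧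
  h ∉ M ∧ r ∉ M ∧ (∀ x ∈ M, G.Adj r x ↔ (M.head? = some x ∨ M.getLast? = some x)) ∧
  (∀ x, x = h ∨ x = r ∨ x ∈ M) ∧
  (∃ a b c, G.Adj h a ∧ G.Adj h b ∧ G.Adj h c ∧ a ≠ b ∧ a ≠ c ∧ b ≠ c ∧ ¬ G.Adj a b ∧ ¬ G.Adj a c ∧
    ¬ G.Adj b c) ∧
  ∀ a b c, G.Adj a b → G.Adj b c → a ≠ c → a ≠ h → b ≠ h → c ≠ h →
    ¬ (G.Adj h a ∧ G.Adj h b ∧ G.Adj h c)

open Classical in
/-- number of the vertices in `M` adjacent to both `h` and `k` (rungs) -/
noncomputable def rungs (G : SimpleGraph V) (h k : V) (M : List V) : ℕ :=
  (M.filter (fun x => decide (G.Adj h x ∧ G.Adj k x))).length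

/-- ladder: `M` is an induced path whose first vertex is adjacent to exactly one of the nonadjacent
vertices `h` and `k` (to `h` if `a = true`), whose last vertex is adjacent to exactly one of them
(to `h` if `b = true`), while every other vertex of `M` is adjacent to both or to none; adjacent
vertices of `M` are not both adjacent to both -/
structure LadM (G : SimpleGraph V) (h k : V) (M : List V) (a b : Bool) : Prop where
  ip : IPt G M
  two : 2 ≤ M.length
  ne : h ≠ k
  nadj : ¬ G.Adj h k
  hM : h ∉ M
  kM : k ∉ M
  fst : ∀ x ∈ M.head?, (G.Adj h x ↔ a = true) ∧ (G.Adj k x ↔ a = false)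
  lst : ∀ x ∈ M.getLast?, (G.Adj h x ↔ b = true) ∧ (G.Adj k x ↔ b = false)
  mid : ∀ x ∈ M, M.head? ≠ some x → M.getLast? ≠ some x → (G.Adj h x ↔ G.Adj k x)
  ind : ∀ x ∈ M, ∀ y ∈ M, G.Adj x y → ¬ (G.Adj h x ∧ G.Adj k x ∧ G.Adj h y ∧ G.Adj k y)

/-- two vertices adjacent to both `h` and `k` with a common neighbour in `M` -/
def Gap1 (G : SimpleGraph V) (h k : V) (M : List V) : Prop := ∃ x ∈ M, ∃ y ∈ M, ∃ z ∈ M, x ≠ y ∧
  G.Adj h x ∧ G.Adj k x ∧ G.Adj h y ∧ G.Adj k y ∧ G.Adj x z ∧ G.Adj z y

/-- ladders without connector -/
def Ladder (G : SimpleGraph V) : Prop := ∃ (h k : V) (M : List V) (a b : Bool), LadM G h k M a b ∧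
  (∀ x, x = h ∨ x = k ∨ x ∈ M) ∧
  ((a = b ∧ Odd (rungs G h k M) ∧ 3 ≤ rungs G h k M) ∨
    (a ≠ b ∧ Even (rungs G h k M) ∧ 4 ≤ rungs G h k M) ∨
    (a ≠ b ∧ rungs G h k M = 2 ∧ ¬ Gap1 G h k M))

/-- ladders with a connector `c` -/
def LadderC (G : SimpleGraph V) : Prop := ∃ (c h k : V) (M : List V) (a b : Bool),
  LadM G h k M a b ∧ (∀ x, x = c ∨ x = h ∨ x = k ∨ x ∈ M) ∧ c ∉ M ∧
  (∀ x, G.Adj c x ↔ x = h ∨ x = k) ∧
  ((a = b ∧ Even (rungs G h k M) ∧ 2 ≤ rungs G h k M) ∨
    (a ≠ b ∧ Odd (rungs G h k M) ∧ 3 ≤ rungs G h k M) ∨
    (a ≠ b ∧ rungs G h k M = 2 ∧ Gap1 G h k M))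

/-- a ring of links: the vertices `n 0, …, n (m-1)` form a clique, `P i` is the interior of an
induced path from `n i` to `n (i+1)` (indices modulo `m`) with at least two interior vertices -/
structure Ring (G : SimpleGraph V) (m : ℕ) (n : ℕ → V) (P : ℕ → List V) : Prop where
  m3 : 3 ≤ m
  clq : ∀ i j, i < m → j < m → i ≠ j → G.Adj (n i) (n j)
  len : ∀ i, i < m → 2 ≤ (P i).length
  pth : ∀ i, i < m → IPt G (P i)
  fst : ∀ i, i < m → ∀ x ∈ P i, G.Adj (n i) x ↔ (P i).head? = some x
  lst : ∀ i, i < m → ∀ x ∈ P i, G.Adj (n ((i + 1) % m)) x ↔ (P i).getLast? = some x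
  cln : ∀ i j, i < m → j < m → j ≠ i → j ≠ (i + 1) % m → ∀ x ∈ P i, ¬ G.Adj (n j) x
  dis : ∀ i j, i < m → j < m → ∀ x ∈ P i, x ≠ n j
  sep : ∀ i j, i < m → j < m → i ≠ j → ∀ x ∈ P i, ∀ y ∈ P j, x ≠ y ∧ ¬ G.Adj x y

/-- rings with an even number of links -/
def RingE (G : SimpleGraph V) : Prop := ∃ (m : ℕ) (n : ℕ → V) (P : ℕ → List V), Ring G m n P ∧
  Even m ∧ 4 ≤ m ∧ ∀ x, (∃ i, i < m ∧ x = n i) ∨ ∃ i, i < m ∧ x ∈ P i

/-- rings with an odd number of links and a further vertex adjacent to the clique -/
def RingO (G : SimpleGraph V) : Prop := ∃ (c : V) (m : ℕ) (n : ℕ → V) (P : ℕ → List V),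
  Ring G m n P ∧ Odd m ∧ (∀ i, i < m → c ∉ P i ∧ c ≠ n i) ∧
  (∀ x, G.Adj c x ↔ ∃ i, i < m ∧ x = n i) ∧
  ∀ x, x = c ∨ (∃ i, i < m ∧ x = n i) ∨ ∃ i, i < m ∧ x ∈ P i

/-! ### The table -/

/-- `i < j` are adjacent in the graph with the code `T = (n, m)`: the vertices are `0, …, n-1`, and
the binary digits of `m` are the entries above the diagonal of the adjacency matrix, column by
column -/
def Ed (T : ℕ × ℕ) (i j : ℕ) : Prop :=
  i < j ∧ j < T.1 ∧ T.2.testBit (j * (j - 1) / 2 + i) = true

/-- `i` has exactly two neighbours -/
def Two (T : ℕ × ℕ) (i : ℕ) : Prop := {j | Ed T i j ∨ Ed T j i}.ncard = 2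

/-- the edges joining two vertices of degree two -/
def El (T : ℕ × ℕ) (i j : ℕ) : Prop := Ed T i j ∧ Two T i ∧ Two T j

/-- `G` is obtained from the graph with the code `T` by subdividing edges joining two vertices of
degree two: `P i j` is the interior of the path that replaces the edge `i j` (it may be empty) -/
def Sub (G : SimpleGraph V) (T : ℕ × ℕ) : Prop := ∃ (f : ℕ → V) (P : ℕ → ℕ → List V),
  (∀ i j, i < j → j < T.1 → f i ≠ f j ∧ (¬ El T i j → (G.Adj (f i) (f j) ↔ Ed T i j))) ∧
  (∀ i j, El T i j → IPt G (f i :: (P i j ++ [f j])) ∧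
    ∀ x ∈ P i j, ∀ m < T.1, x ≠ f m ∧ (m ≠ i → m ≠ j → ¬ G.Adj x (f m))) ∧
  (∀ i j i' j', El T i j → El T i' j' → (i, j) ≠ (i', j') →
    ∀ x ∈ P i j, ∀ y ∈ P i' j', x ≠ y ∧ ¬ G.Adj x y) ∧
  ∀ x, (∃ i < T.1, x = f i) ∨ ∃ i j, El T i j ∧ x ∈ P i j

/-- the codes of the remaining graphs -/
def tab : List (ℕ × ℕ) := [
  (9, 66718830728), (8, 239509761), (8, 133959816), (9, 34058014785), (10, 17377471300626),
  (11, 17763710936322184), (8, 231493697), (9, 59157578770), (10, 30254961823880),
  (8, 194513938), (9, 49534832776), (8, 105292033), (10, 34687368073352), (7, 1973896),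
  (8, 239526145), (8, 252137537), (9, 62324737057), (9, 64484344850), (10, 32993003487250),
  (7, 1722488), (8, 219286337), (9, 55985720338), (10, 28625974038664), (11, 32376254829831169),
  (12, 66299760057422217234), (11, 28723645057105938), (11, 34349312343364609),
  (12, 70337791827987496978), (12, 70346789714675662881), (13, 288083964691326852677650),
  (11, 32669791186681874), (12, 66888588668486819970), (11, 34349311265402881),
  (11, 32669791157780513), (11, 29276151866212370), (10, 33573768923713),
  (11, 34359740658172961), (10, 31922349036545), (11, 32669240353390610), (10, 33553433822912),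
  (10, 33556655048449), (10, 31922348814337), (10, 31922353165313), (10, 31928803869729),
  (10, 28593758961697), (10, 31636829839681), (10, 31623982655808), (10, 28063329559553),
  (10, 24505137498433), (11, 25353140417152033), (10, 27498604232722), (9, 65649330280),
  (9, 62419703488), (9, 62444935745), (9, 60297463928), (10, 28613223254849), (9, 53729637377),
  (10, 30262482307722), (11, 30975478101856393), (11, 34904564708738696),
  (12, 71482831500669440065), (13, 292790190282478793589778), (11, 30973279079106657),
  (12, 71482831499591475457), (13, 292790199280365481755681), (12, 63424212248269293665),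
  (14, 2398523012824109170045272082), (10, 31623928758291), (10, 29162996238633),
  (11, 29849584687911122), (10, 31349108985944), (11, 32094780931705153),
  (11, 32094780927512897), (12, 65723299856044395538), (11, 32094780927379201),
  (12, 65723299856019178529), (12, 65723299305214788626), (13, 269188743723059503014018),
  (10, 30799361616193), (11, 31531833133437985), (12, 64570379452949897473), (9, 61791152643),
  (10, 31913872068745), (11, 33789121914865746), (9, 49602627849), (10, 25342555263073),
  (10, 12675673360466), (11, 12963830518909193), (12, 26533539950127876178), (9, 49468541066),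
  (10, 25299689539681), (10, 25308212367497), (11, 25905623543711841), (9, 54862823699),
  (11, 16354686785955912), (12, 34616356136273727553), (13, 137009733124735304270866),
  (9, 49535912586), (10, 16546369982552), (11, 16909391622179137), (10, 25325359204449),
  (11, 16911590569871105), (12, 34602287336704328737), (13, 141729794046362674922529),
  (14, 1122133447179461783990608129), (11, 25914428227717217), (12, 34615793737678275617),
  (13, 141728641687808024625170), (12, 33464560532043991105), (10, 25325425807497),
  (11, 16915988550519105), (12, 34611290157252480018), (9, 57010299022), (10, 29162996240553),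
  (9, 54962708755), (10, 8302255804553), (11, 8472858095388769), (9, 60181055832),
  (10, 30799361552705), (11, 31531830977578002), (9, 16324888714), (9, 30249463945),
  (10, 15449014290514), (9, 60230996137), (10, 15449014219073), (11, 15791188154598418),
  (10, 30812196311250), (11, 15791190310458401), (12, 32311077729908990209), (9, 65582925921),
  (9, 62444869377), (9, 55855738881), (8, 214716947), (9, 64517703762), (8, 194588754),
  (9, 49598435593), (8, 215491347), (8, 236196495), (9, 55919645331), (10, 28608928436499),
  (8, 235679886), (9, 55936553129), (8, 236196627), (8, 119146610), (9, 30283008344),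
  (10, 15449014282561), (10, 31671256623425), (10, 20346439106561), (9, 61976346968),
  (9, 61841605912), (9, 54861605184), (9, 60297582936), (9, 39750245376), (9, 47942471768),
  (10, 24778404660993), (8, 256520268), (8, 244582632), (8, 252326035), (8, 236196494),
  (8, 210052544), (8, 228132627), (8, 185739659), (9, 60994375698), (10, 31213776797961),
  (11, 31955132375631954), (7, 1976715), (7, 1855667), (11, 28019997305803777),
  (10, 27376289584320), (10, 3584739737600), (9, 53520634504), (10, 27371928555585),
  (8, 216948872), (9, 55416721473), (10, 28342690579474), (10, 16831998101600),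
  (11, 17202964334773761), (12, 35197885646161100818), (9, 57026089985), (8, 194319552),
  (8, 243028018), (8, 60101824), (9, 59162005505), (10, 30263021666337), (11, 30971766562103553),
  (9, 49539369024), (10, 25325856886785), (10, 25326404109313), (11, 25914949679218721),
  (10, 25325871432705), (11, 25913991364640801), (11, 25914953407954962),
  (12, 53053816792642764818), (9, 56431481857), (10, 27089634361377), (10, 29151184650258),
  (11, 28434796629737490), (8, 229464128), (9, 57563975681), (10, 28338935037970),
  (8, 222744768), (9, 54269587457), (9, 56964158465), (10, 28047948939297), (10, 33591620812833),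
  (10, 29176920915986), (9, 58129925153), (8, 223527681), (10, 31653944100946), (9, 61908214025),
  (9, 32992661569), (10, 17103667135506), (10, 16282254640146), (11, 17482785715425416),
  (8, 242488082), (9, 33525338177), (9, 32426689569), (10, 15999831162898),
  (11, 28441107138445330), (12, 56793228350385569810), (10, 27649012405249),
  (11, 27385580271206433), (11, 16216297633747009), (12, 33178728756597031954),
  (10, 15867002232968), (10, 27786447164417), (11, 27877336309858337), (9, 54317465792),
  (10, 27098193342465), (10, 16554976821313), (11, 16919840091538465), (11, 28723968802603265),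
  (12, 58812815556043867169), (10, 28064595886337), (11, 28724243639305249),
  (10, 28064594074120), (11, 28724243672219713), (10, 24778946003009), (11, 28724243621660736),
  (12, 58812815539931713537), (12, 58813097153406305281), (13, 240868964508770710356001),
  (10, 16003610362048), (11, 16075002842460161), (11, 16356616317178881),
  (12, 32890072036826185761), (13, 240868676068113496703009), (14, 1973082691221187174298828818),
  (10, 16553366307073), (12, 32601631379612532769), (13, 134652299415876081303570),
  (12, 58813097015971546113), (13, 240869540970343860043794), (11, 16356478882419713),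
  (12, 33466533610004774930), (9, 57027138561), (10, 28064596131873), (9, 32455724552),
  (9, 48475183624), (9, 49540284673), (12, 62268477644357009426), (13, 255029716132630959767570),
  (12, 62268477640628273185), (11, 30409782595814401), (10, 25325988742177),
  (11, 25914979061466113), (12, 62268195757092798497), (11, 30409782048591873),
  (10, 29707370416192), (10, 16004172892225), (11, 25353692388590625),
  (12, 33466816747137966337), (12, 68029415714967273505), (13, 278630296741911789568018),
  (11, 33221216766525458), (11, 32940291012952097), (12, 66300036756591878401),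
  (10, 32449640955905), (11, 32939329502314529), (10, 32038402031617), (11, 31955132914597906),
  (9, 63406001152), (8, 123379969), (8, 131895432), (9, 49540382785), (8, 194335936),
  (8, 194107912), (9, 48479414856), (9, 22641453128), (10, 20350813997121),
  (11, 11834063052669985), (12, 42663184778280345857), (8, 218769802), (9, 55919128713),
  (10, 28608861702241), (7, 1716883), (8, 218910995), (6, 29327), (11, 33797343677562898),
  (10, 33026165179425), (9, 64579887361), (11, 34930421418541074), (10, 33591081911329),
  (9, 65180665601), (12, 72661657481103065106), (11, 35211895318774817), (10, 34276129169665)]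

/-- the list -/
def InF (G : SimpleGraph V) : Prop :=
  Diamond G ∨ Wheel G ∨ Ladder G ∨ LadderC G ∨ RingE G ∨ RingO G ∨ ∃ T ∈ tab, Sub G T

end Pool.Agent.Helper64.FX
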